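import Pool.Agent.Helper41_MWU.GamR
import Pool.Agent.Helper90_MWLQ.CompL
import Pool.Agent.Helper70_MWGX.Comp

/-!
# The gamma world `xyx ≈ xyx^(n+1)` for all periods: necessity without hypotheses (MP_23468a_al)
-/

set_option autoImplicit false

namespace Pool.Agent.MWU.H41

open Pool.Agent.Helper14_MV Pool.Agent.Helper2_MV

/-- **Necessity, gamma world outside beta, all periods.** -/
theorem gNF : MWU.Nec (fun _ => True) (fun n β => MWU.Gam n (RR β) ∧ ¬ MWU.Bet n (RR β)) SGR :=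
  gN MWLQ.Comp.c_MWGQ_Pwx MWLQ.Comp.c_MWGQ_Gnd MWLQ.Comp.c_MWLQ_Lef MWLQ.Comp.c_MWLQ_Itd
    MWLQ.Comp.c_MWLQ_Nmn Helper70_MWGX.Comp.mwgx_flx Helper70_MWGX.Comp.mwgx_dgr
    Helper70_MWGX.Comp.mwgx_eam Helper70_MWGX.Comp.mwgx_di2 Helper70_MWGX.Comp.mwgx_reg
    Helper70_MWGX.Comp.mwgx_fep

end Pool.Agent.MWU.H41
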