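import Pool.Agent.Helper41_MWU.GamR
import Pool.Agent.Helper20_MWGP.Comp
import Pool.Agent.Helper20_MWGR.Comp

/-!
# The gamma world `xyx ≈ xyx^(n+1)` for all periods: sufficiency without hypotheses (MP_23468a_al)
-/

set_option autoImplicit false

namespace Pool.Agent.MWU.H41

open Pool.Agent.Helper14_MV Pool.Agent.Helper2_MV

/-- **Sufficiency, gamma world, all periods.** -/
theorem gSF : MWU.Suf (fun _ => True) SGR :=
  gS MWGP.Comp.sgm (fun n β h => distF_modF (MWGR.Comp.g_sur n β h))

end Pool.Agent.MWU.H41
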