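import Pool.Agent.Helper85_GN.Brg
import Pool.Agent.MWLQ.StmtsB
import Pool.Agent.MWGX.StmtsB
import Pool.Agent.MWGR.DefsC

/-!
# The gamma world `xyx ≈ xyx^(n+1)` for all periods (MP_23468a_al)

`SGR n`: `xyx ≈ xyx^(n+1)`, `x^(n+1)y^(n+1) ≈ y^(n+1)x^(n+1)`, and one of: `x²y ≈ x²yx^n`; the base
(`F`, `F'`, `I1 n`, `I2`); the region without mixing (`MWGR.Reg n`).  The forms of MWU.  In the
necessity the exact period `d ∣ n` is used and the result is transferred from `d` to `n`.
-/

set_option autoImplicit false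

namespace Pool.Agent.MWU.H41

open Pool.Agent.Helper14_MV Pool.Agent.Helper2_MV Pool.Agent.MVO Pool.Agent.MWZ
open Pool.Agent.MWGQ (pw Gn E0)
open Pool.Agent.MWGR (It Kaba F1 Dm Ec Es Ea Al0 Rh FE Reg BG)

/-- the systems of the gamma world -/
def SGR : MWU.Sy := fun n S =>
  MWU.Gam n S ∧ MWGP.Rn n S ∧
    (S [0, 0, 1] (0 :: 0 :: 1 :: X n) ∨ BaseH n S ∨ MWGR.Reg n S)

/-! ### from the exact period `d` to a multiple `n` -/

theorem pw_one (k x : ℕ) : pw k [x] = List.replicate k x := by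
  induction k with
  | zero => rfl
  | succ k ih =>
    rw [MWGX.pw_succ, ih, List.replicate_succ]
    rfl

/-- exponents of non-first powers and of squares -/
theorem exc {d : ℕ} {β : FIC} (h : MWGQ.PwxStmt) (G : Gn d β) (P R : List ℕ) (x i j : ℕ)
    (hij : i ≡ j [MOD d]) (hx : (x ∈ P ∧ 1 ≤ i ∧ 1 ≤ j) ∨ (2 ≤ i ∧ 2 ≤ j)) :
    RR β (P ++ (List.replicate i x ++ R)) (P ++ (List.replicate j x ++ R)) := by
  rcases hx with ⟨hx, hi, hj⟩ | ⟨hi, hj⟩
  · obtain ⟨P1, P2, rfl⟩ := List.append_of_mem hx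
    have h1 := (h d β G).2.1 [x] P2 i j hi hj hij
    rw [pw_one, pw_one] at h1
    have h2 := ((RR.refl (β := β) P1).append h1).append (RR.refl R)
    simpa only [List.append_assoc, List.cons_append, List.nil_append] using h2
  · have h1 := (h d β G).1 [x] i j hi hj hij
    rw [pw_one, pw_one] at h1
    have h2 := ((RR.refl (β := β) P).append h1).append (RR.refl R)
    simpa only [List.append_assoc] using h2

/-- insertion of `x^(d k)` -/
theorem itk {d : ℕ} {β : FIC} (h : It d (RR β)) (p w w' q : List ℕ) (x : ℕ)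
    (hm : MVO.Sys.Mul (w ++ w') (p ++ x :: (w ++ (w' ++ x :: q)))) (k : ℕ) :
    RR β (p ++ x :: (w ++ (w' ++ x :: q)))
      (p ++ x :: (w ++ (List.replicate (d * k) x ++ (w' ++ x :: q)))) := by
  induction k with
  | zero => exact RR.refl _
  | succ k ih =>
    have h1 := h p w (List.replicate (d * k) x ++ w') q x (by
      intro a ha
      have h2 : a ∈ w ++ w' ∨ a = x := by
        rcases List.mem_append.1 ha with h3 | h3
        · exact Or.inl (List.mem_append_left _ h3)
        · rcases List.mem_append.1 h3 with h4 | h4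
          · exact Or.inr (List.eq_of_mem_replicate h4)
          · exact Or.inl (List.mem_append_right _ h4)
      rcases h2 with h2 | h2
      · have h5 := hm a h2
        simp only [List.count_append, List.count_cons] at h5 ⊢
        omega
      · subst h2
        simp only [List.count_append, List.count_cons_self]
        omega)
    have e : List.replicate (d * (k + 1)) x = List.replicate d x ++ List.replicate (d * k) x := by
      rw [← List.replicate_add]
      congr 1
      ring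
    rw [e]
    simp only [List.append_assoc] at h1 ih ⊢
    exact β.trans ih h1

theorem modEq_of {d i j : ℕ} : (∃ a b, i + a * d = j + b * d) → i ≡ j [MOD d] := by
  rintro ⟨a, b, h⟩
  have h1 : i + a * d ≡ j + b * d [MOD d] := by rw [h]
  have h2 : i ≡ i + a * d [MOD d] := by
    unfold Nat.ModEq
    rw [Nat.add_mul_mod_self_right]
  have h3 : j ≡ j + b * d [MOD d] := by
    unfold Nat.ModEq
    rw [Nat.add_mul_mod_self_right]
  exact h2.trans (h1.trans h3.symm)

theorem fe_up {d n : ℕ} {β : FIC} (h : MWGQ.PwxStmt) (G : Gn d β) (hI : It d (RR β)) (hn : 1 ≤ n)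
    (hdn : d ∣ n) (hF : FE d 1 (RR β)) : FE n 1 (RR β) := by
  have hd := G.pos
  have hle : d ≤ n := Nat.le_of_dvd hn hdn
  have hnd : n ≡ d [MOD d] := by
    unfold Nat.ModEq
    rw [Nat.mod_self, Nat.mod_eq_zero_of_dvd hdn]
  intro p q w r x a b hxa hxb hab hm
  have hm' : MVO.Sys.Mul w (p ++ (List.replicate d x ++ a :: (List.replicate (d + 1) x ++
      b :: (List.replicate d x ++ (q ++ a :: (w ++ b :: r)))))) := by
    intro c hc
    have h1 := hm c hc
    by_cases hcx : c = x
    · subst hcx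
      simp only [List.count_append, List.count_cons, List.count_replicate_self]
      omega
    · have e : ∀ k, (List.replicate k x).count c = 0 := fun k => by
        rw [List.count_eq_zero]
        intro h2
        exact hcx (List.eq_of_mem_replicate h2)
      simp only [List.count_append, List.count_cons, e] at h1 ⊢
      exact h1
  have hs := hF p q w r x a b hxa hxb hab hm'
  obtain ⟨T, hT⟩ : ∃ T, T = q ++ a :: (w ++ b :: r) := ⟨_, rfl⟩
  rw [← hT] at hs ⊢
  have haT : a ∈ T := by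
    rw [hT]
    simp
  -- left side
  obtain ⟨e, rfl⟩ : ∃ e, d = e + 1 := ⟨d - 1, by omega⟩
  obtain ⟨k, hk⟩ := hdn
  obtain ⟨k, rfl⟩ : ∃ k', k = k' + 1 := ⟨k - 1, by
    rcases Nat.eq_zero_or_pos k with h0 | h0
    · rw [h0] at hk
      omega
    · omega⟩
  have hxx : ∀ j : ℕ, x ∈ List.replicate (j + 1) x := fun j => by
    rw [List.mem_replicate]
    omega
  have l1 : RR β (p ++ (List.replicate (e + 1) x ++ a :: (List.replicate (e + 1 + 1) x ++
      b :: (List.replicate (e + 1) x ++ T))))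
      (p ++ (List.replicate n x ++ a :: (List.replicate (e + 1 + 1) x ++
        b :: (List.replicate (e + 1) x ++ T)))) := by
    have h1 := itk hI (p ++ List.replicate e x) [] [a] (List.replicate (e + 1) x ++
        b :: (List.replicate (e + 1) x ++ T)) x (by
      intro c hc
      rw [List.nil_append, List.mem_singleton] at hc
      subst hc
      have := List.count_pos_iff.2 haT
      simp only [List.count_append, List.count_cons, List.count_nil]
      simp
      omega) k
    have e1 : ∀ Y : List ℕ, List.replicate (e + 1) x ++ Y = List.replicate e x ++ x :: Y := by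
      intro Y
      rw [List.replicate_succ', List.append_assoc]
      rfl
    have e2 : List.replicate n x = List.replicate e x ++ x :: List.replicate ((e + 1) * k) x := by
      rw [hk, show (e + 1) * (k + 1) = e + ((e + 1) * k + 1) by ring, List.replicate_add,
        List.replicate_succ]
    have e3 : List.replicate (e + 1 + 1) x = x :: List.replicate (e + 1) x := List.replicate_succ
    rw [e2, e3]
    have e4 : p ++ (List.replicate (e + 1) x ++ a :: (x :: List.replicate (e + 1) x ++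
        b :: (List.replicate (e + 1) x ++ T))) = (p ++ List.replicate e x) ++ x :: ([] ++ ([a] ++
        x :: (List.replicate (e + 1) x ++ b :: (List.replicate (e + 1) x ++ T)))) := by
      rw [e1 (a :: _)]
      simp
    have e5 : p ++ ((List.replicate e x ++ x :: List.replicate ((e + 1) * k) x) ++
        a :: (x :: List.replicate (e + 1) x ++ b :: (List.replicate (e + 1) x ++ T))) =
        (p ++ List.replicate e x) ++ x :: ([] ++ (List.replicate ((e + 1) * k) x ++ ([a] ++
        x :: (List.replicate (e + 1) x ++ b :: (List.replicate (e + 1) x ++ T))))) := by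
      simp
    rw [e4, e5]
    exact h1
  have hn1 : n + 1 ≡ e + 1 + 1 [MOD (e + 1)] := hnd.add_right 1
  have hnx : x ∈ List.replicate n x := by
    rw [List.mem_replicate]
    omega
  have l2 := exc h G (p ++ (List.replicate n x ++ [a])) (b :: (List.replicate (e + 1) x ++ T)) x
    (e + 1 + 1) (n + 1) hn1.symm (Or.inl ⟨by simp [hnx], by omega, by omega⟩)
  have l3 := exc h G (p ++ (List.replicate n x ++ a :: (List.replicate (n + 1) x ++ [b]))) T x
    (e + 1) n hnd.symm (Or.inl ⟨by simp [hnx], by omega, hn⟩)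
  -- right side
  have r1 := exc h G p (b :: (List.replicate (e + 1 + (e + 1 - 1) * 1) x ++
    a :: (List.replicate (e + 1 + 1) x ++ T))) x (e + 1 + 1) (n + 1) hn1.symm
    (Or.inr ⟨by omega, by omega⟩)
  have hn2 : e + 1 + (e + 1 - 1) * 1 ≡ n + (n - 1) * 1 [MOD (e + 1)] := by
    apply modEq_of
    refine ⟨2 * k, 0, ?_⟩
    rw [hk]
    have : (e + 1) * (k + 1) - 1 = (e + 1) * k + e := by
      have : (e + 1) * (k + 1) = (e + 1) * k + e + 1 := by ring
      omega
    rw [this, Nat.add_sub_cancel]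
    ring
  have r2 := exc h G (p ++ (List.replicate (n + 1) x ++ [b]))
    (a :: (List.replicate (e + 1 + 1) x ++ T)) x (e + 1 + (e + 1 - 1) * 1) (n + (n - 1) * 1) hn2
    (Or.inl ⟨by simp, by omega, by omega⟩)
  have r3 := exc h G (p ++ (List.replicate (n + 1) x ++ b :: (List.replicate (n + (n - 1) * 1) x ++
    [a]))) T x (e + 1 + 1) (n + 1) hn1.symm (Or.inl ⟨by simp, by omega, by omega⟩)
  simp only [List.append_assoc, List.cons_append, List.nil_append] at l2 l3 r1 r2 r3
  exact β.trans (RR.symm (β.trans l1 (β.trans l2 l3))) (β.trans hs (β.trans r1 (β.trans r2 r3)))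

theorem lit_up {d n : ℕ} {β : FIC} (h : MWGQ.PwxStmt) (G : Gn d β) (hn : 1 ≤ n) (hdn : d ∣ n) :
    (F1 d (RR β) → F1 n (RR β)) ∧ (Al0 d (RR β) → Al0 n (RR β)) ∧ (Rh d (RR β) → Rh n (RR β)) := by
  have hd := G.pos
  have hnd : d ≡ n [MOD d] := by
    unfold Nat.ModEq
    rw [Nat.mod_self, Nat.mod_eq_zero_of_dvd hdn]
  refine ⟨fun h1 => ?_, fun h1 => ?_, fun h1 => ?_⟩
  · exact β.trans h1 (exc h G [0, 0, 2] [3, 0, 0] 0 d n hnd (Or.inl ⟨by simp, hd, hn⟩))
  · exact β.trans h1 (exc h G [0, 0, 1] [2, 1] 0 d n hnd (Or.inl ⟨by simp, hd, hn⟩))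
  · exact β.trans h1 (exc h G [0, 2] [1, 0, 0, 3, 1] 0 d n hnd (Or.inl ⟨by simp, hd, hn⟩))

theorem dm_up {d n m : ℕ} {β : FIC} (h : MWGX.FlxStmt) (hd : 1 ≤ d) (hI : It d (RR β)) (hn : 1 ≤ n)
    (hdn : d ∣ n) (hD : Dm d m (RR β)) : Dm n m (RR β) := by
  have hnd : d ≡ n [MOD d] := by
    unfold Nat.ModEq
    rw [Nat.mod_self, Nat.mod_eq_zero_of_dvd hdn]
  have h1 := h d β hI 1 (d + m) d (n + m) n [] [2, 1] (by omega) hd (by omega) hn
    (hnd.add_right m) hnd (by simp)
  have h2 := h d β hI 1 d (d + m) n (n + m) [] [2, 1] hd (by omega) hn (by omega) hnd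
    (hnd.add_right m) (by simp)
  exact β.trans (RR.symm h1) (β.trans hD h2)

theorem ea_up {d n c : ℕ} {β : FIC} (h : MWGX.FlxStmt) (hd : 1 ≤ d) (hI : It d (RR β)) (hn : 1 ≤ n)
    (hdn : d ∣ n) (hD : Ea d c (RR β)) : Ea n c (RR β) := by
  have hnd : d ≡ n [MOD d] := by
    unfold Nat.ModEq
    rw [Nat.mod_self, Nat.mod_eq_zero_of_dvd hdn]
  have hm : d + (d - 1) * c ≡ n + (n - 1) * c [MOD d] := by
    obtain ⟨k, rfl⟩ := hdn
    obtain ⟨e, rfl⟩ : ∃ e, d = e + 1 := ⟨d - 1, by omega⟩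
    obtain ⟨k, rfl⟩ : ∃ k', k = k' + 1 := ⟨k - 1, by
      rcases Nat.eq_zero_or_pos k with h0 | h0
      · rw [h0] at hn
        omega
      · omega⟩
    apply modEq_of
    refine ⟨k + k * c, 0, ?_⟩
    have : (e + 1) * (k + 1) - 1 = (e + 1) * k + e := by
      have : (e + 1) * (k + 1) = (e + 1) * k + e + 1 := by ring
      omega
    rw [this, Nat.add_sub_cancel]
    ring
  obtain ⟨T, hT⟩ : ∃ T : List ℕ, T = [3, 1, 4, 2, 5, 1] := ⟨_, rfl⟩
  unfold Ea Ec at hD ⊢
  rw [← hT] at hD ⊢
  have a1 := h d β hI 1 d (d + c) n (n + c) [] (2 :: (X d ++ T)) hd (by omega) hn (by omega) hnd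
    (hnd.add_right c) (by rw [hT]; simp)
  have a2 := h d β hI 2 (n + c) d (n + c) n (X n ++ [1]) T (by omega) hd (by omega) hn
    (Nat.ModEq.refl _) hnd (by rw [hT]; simp)
  have b1 := h d β hI 2 (d + c) (d + (d - 1) * c) (n + c) (n + (n - 1) * c) []
    (1 :: (X (d + c) ++ T)) (by omega) (by omega) (by omega) (by omega) (hnd.add_right c) hm
    (by rw [hT]; simp)
  have b2 := h d β hI 1 (n + (n - 1) * c) (d + c) (n + (n - 1) * c) (n + c) (X (n + c) ++ [2]) T
    (by omega) (by omega) (by omega) (by omega) (Nat.ModEq.refl _) (hnd.add_right c)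
    (by rw [hT]; simp)
  simp only [List.append_assoc, List.cons_append, List.nil_append] at a1 a2 b1 b2
  exact β.trans (RR.symm (β.trans a1 a2)) (β.trans hD (β.trans b1 b2))

/-- **the region for `d` gives the region for `n`** -/
theorem reg_up {d n : ℕ} {β : FIC} (hP : MWGQ.PwxStmt) (hX : MWGX.FlxStmt) (hDg : MWGX.DgrStmt)
    (hE : MWGX.EamStmt) (G : Gn d β) (hn : 1 ≤ n) (hdn : d ∣ n) (hB : BG n (RR β))
    (hR : Reg d (RR β)) : Reg n (RR β) := by
  have hd := G.pos
  obtain ⟨u1, u2, u3⟩ := lit_up hP G hn hdn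
  refine { toBG := hB, k := hR.k, fe := ?_, hall := ?_ }
  · rcases hR.fe with h1 | ⟨h1, h2⟩
    · exact Or.inl (fe_up hP G hR.it hn hdn h1)
    · refine Or.inr ⟨u1 h1, ?_⟩
      rcases h2 with h2 | h2
      · exact Or.inl (u2 h2)
      · exact Or.inr (u3 h2)
  · intro q r hqr hco
    have hgd : Nat.gcd d q * Nat.gcd d r = d := by
      rw [← hco.gcd_mul d, hqr]
      exact Nat.gcd_eq_left hdn
    have hco' : Nat.Coprime (Nat.gcd d q) (Nat.gcd d r) :=
      Nat.Coprime.coprime_dvd_left (Nat.gcd_dvd_right d q)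
        (Nat.Coprime.coprime_dvd_right (Nat.gcd_dvd_right d r) hco)
    rcases hR.hall _ _ hgd hco' with h1 | h1
    · left
      obtain ⟨δ, hδ⟩ := hDg d β hd hR.it
      have h2 : δ ∣ r := ((hδ.iff _).1 h1).trans (Nat.gcd_dvd_right d r)
      exact dm_up hX hd hR.it hn hdn ((hδ.iff r).2 h2)
    · right
      obtain ⟨k, hk⟩ := Nat.gcd_dvd_right d q
      have hq : 1 ≤ q := by
        rcases Nat.eq_zero_or_pos q with h0 | h0
        · rw [h0, Nat.zero_mul] at hqr
          omega
        · exact h0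
      have hk1 : 1 ≤ k := by
        rcases Nat.eq_zero_or_pos k with h0 | h0
        · rw [h0, Nat.mul_zero] at hk
          omega
        · exact h0
      have h2 := (hE d β hd hR.it _ h1).1 k hk1
      rw [Nat.mul_comm, ← hk] at h2
      exact ea_up hX hd hR.it hn hdn h2

/-! ### necessity and sufficiency -/

/-- **Necessity, gamma world outside beta, all periods.** -/
theorem gN (hP : MWGQ.PwxStmt) (hG : MWGQ.GndStmt) (hL : MWLQ.LefStmt) (hT : MWLQ.ItdStmt)
    (hN : MWLQ.NmnStmt) (hX : MWGX.FlxStmt) (hDg : MWGX.DgrStmt) (hE : MWGX.EamStmt)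
    (hD2 : MWGX.Di2Stmt) (hRg : MWGX.RegStmt) (hFe : MWGX.FepStmt) :
    MWU.Nec (fun _ => True) (fun n β => MWU.Gam n (RR β) ∧ ¬ MWU.Bet n (RR β)) SGR := by
  rintro n β hn - hp hcr - hm ⟨hga, hbe⟩
  left
  obtain ⟨h1, h2⟩ := MWKP.H65.nec hn hp hcr hga hbe hm
  have hr : MWGP.Rn n (RR β) := h1 (n + 1) (n + 1) (by omega) (by omega)
  refine ⟨hga, hr, ?_⟩
  by_cases hk : RR β [0, 0, 1] (0 :: 0 :: 1 :: X n)
  · exact Or.inl hk
  right
  have h3 := h2.resolve_left (fun h4 => hk h4.e)
  obtain ⟨hF, hI1, hIt⟩ := hN n β hm hn hp hcr hga hbe hr h3 hk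
  obtain ⟨d, hd, G, -⟩ := hG n β hn hp hcr hga hbe hr h3
  have hdn : d ∣ n := by
    have h4 := G.en 2 (n + 2) hp
    have h5 : n + 2 ≡ 0 + 2 [MOD d] := by
      rw [Nat.zero_add]
      exact h4.symm
    exact (Nat.modEq_zero_iff_dvd).1 (Nat.ModEq.add_right_cancel' 2 h5)
  have hE0 : ¬ E0 d β := fun h4 => hk ((hT n d β hn hd hdn G).2.2 h4)
  obtain ⟨-, hId⟩ := hL d β hm G hE0
  by_cases hD : Dm d 1 (RR β)
  · exact Or.inl ⟨hF, Helper85_GN.f'_of hga hr, hI1, (hD2 d β G hId).2 hD⟩
  · rcases hRg d β hm G hE0 hId hF (hFe d β hm G hId hD) with h4 | h4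
    · exact Or.inl ⟨hF, Helper85_GN.f'_of hga hr, hI1, h4.i2⟩
    · exact Or.inr (reg_up hP hX hDg hE G hn hdn ⟨hn, hp, hga, hr, hF, hIt⟩ h4)

/-- **Sufficiency, gamma world, all periods.** -/
theorem gS (h : MWGP.SgmStmt) (hS : ∀ (n : ℕ) (β : FIC), Reg n (RR β) → ModF β) :
    MWU.Suf (fun _ => True) SGR := by
  rintro n β hn - hp ⟨hga, hr, hk | ⟨hf, -, h1, h2⟩ | hR⟩
  · exact MWKP.H65.kmod ⟨hn, hga, hk, hr⟩
  · exact (h n β ⟨hn, hp, hga, hr, hf, h1, h2⟩).2
  · exact hS n β hR

end Pool.Agent.MWU.H41
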